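import Pool.Agent.THG.A.Swap
import Pool.Agent.MD.S.One

/-!
# THG/A-Chain: the value at `w = 1` on the far left

PLAN.  `A = max` of the constants of `swap` and `YR_one` (MD/S/One).  Given `X, R`: `E` from `swap` with `X + 1` and `R' = max (R + 2) (X + 5)`, `N z = E 1 z (z + 1/2)`: differentiable on the half box (`Hol2` along the curve `(z, z + 1/2)`), `= Fx S z` for `A < Re z` by the third part of `swap` and `YR_one`.
For `Re s < 3/2 - A` (so `Re s < 0`): `E 1 s (s + 1/2) = GG 1 s * E 1 (2 - s) (s + 1/2)`; at `(2 - s, s + 1/2)`: `ww = 2 s - 1`, real part `< 0`: fourth part: `(2 s - 1)^2 E 1 (2 - s) (s + 1/2) = (2 s - 2)^2 (cU^2)⁻¹ ∑ c', M c' (2 s - 1) * E c' (s + 1/2) (2 - s)`;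
`E c' (s + 1/2) (2 - s) = GG c' (s + 1/2) * E c' (3/2 - s) (2 - s)`, and `E c' (3/2 - s) (2 - s) = YR S c' z (z + 1/2)` with `z = 3/2 - s`, `A < Re z`: `= Fx S z` (`YR_one`).  All imaginary parts are `± Im s`.
-/

namespace Pool.Agent.THG

open Pool.Agent.QD Pool.Agent.QD.SysD Pool.Agent.LD Pool.Agent.MD Pool.Agent.THF

/-- the value of the double series at `w = 1` -/
noncomputable def Fx (S : SysD) (s : ℂ) : ℂ := (S.cU : ℂ)⁻¹ * S.Zf 0 1 1 *
  (S.Ls s * S.Ls (s + 1 / 2) * ((2 * s - 2) ^ 2 * S.Z1 (2 * s - 1))) * Sym S s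

/-- the sum over the classes -/
noncomputable def Th (S : SysD) (s : ℂ) : ℂ :=
  S.GG 1 s * ∑ c' : S.G, S.M c' (2 * s - 1) * S.GG c' (s + 1 / 2)

private theorem ch_re_half (z : ℂ) : (z + 1 / 2).re = z.re + 1 / 2 := by
  rw [Complex.add_re]
  norm_num

private theorem ch_im_half (z : ℂ) : (z + 1 / 2).im = z.im := by
  rw [Complex.add_im]
  norm_num

theorem chain {S : SysD} (hS : IsSys0 S) (hE : IsExt S) (hG : IsKn S Set.univ) :
    ∃ A : ℝ, 6 ≤ A ∧ ∀ X R : ℝ, 0 < X → A < R → ∃ N : ℂ → ℂ,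
      DifferentiableOn ℂ N {z : ℂ | -X < z.re ∧ z.re < R ∧ |z.im| < 1} ∧
      (∀ z : ℂ, A < z.re → z.re < R → |z.im| < 1 → N z = Fx S z) ∧
      ∀ s : ℂ, -X < s.re → s.re < 3 / 2 - A → |s.im| < 1 →
        (2 * s - 1) ^ 2 * N s = (2 * s - 2) ^ 2 * ((S.cU : ℂ) ^ 2)⁻¹ * Th S s *
          Fx S (3 / 2 - s) := by
  obtain ⟨A1, hA1, hsw⟩ := swap hS hG
  obtain ⟨A2, hA2, hone⟩ := YR_one hS hE
  refine ⟨max A1 A2, le_trans hA1 (le_max_left _ _), ?_⟩
  intro X R hX hR
  have hR1 : A1 < R := lt_of_le_of_lt (le_max_left _ _) hR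
  have hR2 : A2 < R := lt_of_le_of_lt (le_max_right _ _) hR
  obtain ⟨R', hR'⟩ : ∃ R', R' = max (R + 2) (X + 5) := ⟨_, rfl⟩
  have hRa : R + 2 ≤ R' := by
    rw [hR']
    exact le_max_left _ _
  have hRb : X + 5 ≤ R' := by
    rw [hR']
    exact le_max_right _ _
  obtain ⟨E, hE1, hE2, hE3, hE4⟩ := hsw (X + 1) R' (by linarith) (by linarith)
  have hmem : ∀ z : ℂ, -X < z.re → z.re < R → |z.im| < 1 →
      (z, z + 1 / 2) ∈ Bx (X + 1) R' := by
    intro z h1 h2 h3
    refine ⟨⟨?_, ?_, h3⟩, ⟨?_, ?_, ?_⟩⟩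
    · show -(X + 1) < z.re
      linarith
    · show z.re < R'
      linarith
    · show -(X + 1) < (z + 1 / 2).re
      rw [ch_re_half]
      linarith
    · show (z + 1 / 2).re < R'
      rw [ch_re_half]
      linarith
    · show |(z + 1 / 2).im| < 1
      rw [ch_im_half]
      exact h3
  refine ⟨fun z => E 1 z (z + 1 / 2), ?_, ?_, ?_⟩
  · intro z hz
    have h1 := hE1 1 (fun z => z) (fun z => z + 1 / 2) differentiable_id
      (differentiable_id.add (differentiable_const _)) z (hmem z hz.1 hz.2.1 hz.2.2)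
    exact h1.differentiableWithinAt
  · intro z h1 h2 h3
    have hz1 : A1 < z.re := lt_of_le_of_lt (le_max_left _ _) h1
    have hz2 : A2 < z.re := lt_of_le_of_lt (le_max_right _ _) h1
    have hz3 : (z, z + 1 / 2) ∈ Bx (X + 1) R' := hmem z (by linarith) h2 h3
    show E 1 z (z + 1 / 2) = Fx S z
    rw [hE3 1 z (z + 1 / 2) hz3 hz1 (by rw [ch_re_half]; linarith), hone 1 z hz2]
    rfl
  · intro s h1 h2 h3
    have hs1 : A1 < 3 / 2 - s.re := by linarith [le_max_left A1 A2]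
    have hs2 : A2 < 3 / 2 - s.re := by linarith [le_max_right A1 A2]
    have hs0 : s.re < 0 := by linarith
    have e2r : (2 - s : ℂ).re = 2 - s.re := by simp
    have e2i : (2 - s : ℂ).im = -s.im := by simp
    have e3r : (3 / 2 - s : ℂ).re = 3 / 2 - s.re := by
      rw [Complex.sub_re]
      norm_num
    have e3i : (3 / 2 - s : ℂ).im = -s.im := by
      rw [Complex.sub_im]
      norm_num
    have m1 : (s, s + 1 / 2) ∈ Bx (X + 1) R' := hmem s h1 (by linarith) h3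
    have m2 : (2 - s, s + 1 / 2) ∈ Bx (X + 1) R' := by
      refine ⟨⟨?_, ?_, ?_⟩, m1.2⟩
      · show -(X + 1) < (2 - s : ℂ).re
        rw [e2r]
        linarith
      · show (2 - s : ℂ).re < R'
        rw [e2r]
        linarith
      · show |(2 - s : ℂ).im| < 1
        rw [e2i, abs_neg]
        exact h3
    have m3 : (s + 1 / 2, 2 - s) ∈ Bx (X + 1) R' := ⟨m2.2, m2.1⟩
    have m4 : (3 / 2 - s, 2 - s) ∈ Bx (X + 1) R' := by
      refine ⟨⟨?_, ?_, ?_⟩, m2.1⟩
      · show -(X + 1) < (3 / 2 - s : ℂ).re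
        rw [e3r]
        linarith
      · show (3 / 2 - s : ℂ).re < R'
        rw [e3r]
        linarith
      · show |(3 / 2 - s : ℂ).im| < 1
        rw [e3i, abs_neg]
        exact h3
    have hw : ww (2 - s) (s + 1 / 2) = 2 * s - 1 := by
      unfold ww
      ring
    have hwr : (ww (2 - s) (s + 1 / 2)).re < 0 := by
      rw [hw]
      have e : (2 * s - 1 : ℂ).re = 2 * s.re - 1 := by simp
      rw [e]
      linarith
    have k1 : E 1 s (s + 1 / 2) = S.GG 1 s * E 1 (2 - s) (s + 1 / 2) :=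
      hE2 1 s (s + 1 / 2) m1 m2 (by linarith)
    have k2 := hE4 1 (2 - s) (s + 1 / 2) m2 hwr
    rw [hw] at k2
    have k3 : ∀ c' : S.G, E c' (s + 1 / 2) (2 - s) =
        S.GG c' (s + 1 / 2) * Fx S (3 / 2 - s) := by
      intro c'
      have e4 : (2 : ℂ) - (s + 1 / 2) = 3 / 2 - s := by ring
      have e5 : (2 : ℂ) - s = 3 / 2 - s + 1 / 2 := by ring
      have l1 := hE2 c' (s + 1 / 2) (2 - s) m3 (by rw [e4]; exact m4)
        (by rw [ch_re_half]; linarith)
      rw [l1, e4, hE3 c' (3 / 2 - s) (2 - s) m4 (by rw [e3r]; exact hs1)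
        (by rw [e2r]; linarith)]
      have l2 := hone c' (3 / 2 - s) (by rw [e3r]; exact hs2)
      rw [← e5] at l2
      rw [l2, e5]
      rfl
    show (2 * s - 1) ^ 2 * E 1 s (s + 1 / 2) = _
    have k4 : ∑ c' : S.G, S.M (1 * c') (2 * s - 1) * E c' (s + 1 / 2) (2 - s) =
        (∑ c' : S.G, S.M c' (2 * s - 1) * S.GG c' (s + 1 / 2)) * Fx S (3 / 2 - s) := by
      rw [Finset.sum_mul]
      refine Finset.sum_congr rfl fun c' _ => ?_
      rw [one_mul, k3 c']
      ring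
    rw [k4] at k2
    rw [k1]
    unfold Th
    linear_combination (S.GG 1 s) * k2

end Pool.Agent.THG
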