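import Pool.Agent.THG.A.XU

/-!
# THG/A-Id2: the identity theorem in two variables

Two functions of two variables, holomorphic along curves in a convex open set, that agree on a non-empty
open subset are equal: restrict to the complex line through a point of the small set.
-/

namespace Pool.Agent.THG

open Pool.Agent.QD Pool.Agent.QD.SysD Pool.Agent.LD Pool.Agent.MD Pool.Agent.THF

/-- the identity theorem in two variables -/
theorem ident2 {U W : Set (ℂ × ℂ)} (hU : IsOpen U) (hUc : Convex ℝ U) {f g : ℂ → ℂ → ℂ}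
    (hf : Hol2 U f) (hg : Hol2 U g) (hW : IsOpen W) (hWU : W ⊆ U) (hn : W.Nonempty)
    (h : ∀ x ∈ W, f x.1 x.2 = g x.1 x.2) : ∀ x ∈ U, f x.1 x.2 = g x.1 x.2 := by
  obtain ⟨w, hw⟩ := hn
  intro x hx
  set σ : ℂ → ℂ := fun z => x.1 + z * (w.1 - x.1) with hσ
  set τ : ℂ → ℂ := fun z => x.2 + z * (w.2 - x.2) with hτ
  have dσ : Differentiable ℂ σ := by
    rw [hσ]
    exact (differentiable_const _).add (differentiable_id.mul (differentiable_const _))
  have dτ : Differentiable ℂ τ := by
    rw [hτ]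
    exact (differentiable_const _).add (differentiable_id.mul (differentiable_const _))
  have cst : Continuous fun z : ℂ => (σ z, τ z) := dσ.continuous.prodMk dτ.continuous
  set V : Set ℂ := {z | (σ z, τ z) ∈ U} with hV
  have V1 : IsOpen V := hU.preimage cst
  have e0 : (σ 0, τ 0) = x := by simp [hσ, hτ]
  have e1 : (σ 1, τ 1) = w := by simp [hσ, hτ]
  have V2 : Convex ℝ V := by
    intro z1 hz1 z2 hz2 a b ha hb hab
    have h1 := hUc hz1 hz2 ha hb hab
    have e : (σ (a • z1 + b • z2), τ (a • z1 + b • z2)) =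
        a • (σ z1, τ z1) + b • (σ z2, τ z2) := by
      have hab' : ((a : ℂ)) + (b : ℂ) = 1 := by exact_mod_cast hab
      simp only [Prod.smul_mk, Prod.mk_add_mk, Complex.real_smul, hσ, hτ, Prod.mk.injEq]
      constructor
      · linear_combination (-x.1) * hab'
      · linear_combination (-x.2) * hab'
    change (σ (a • z1 + b • z2), τ (a • z1 + b • z2)) ∈ U
    rw [e]
    exact h1
  have z0 : (0 : ℂ) ∈ V := by
    change (σ 0, τ 0) ∈ U
    rw [e0]
    exact hx
  have z1 : (1 : ℂ) ∈ V := by
    change (σ 1, τ 1) ∈ U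
    rw [e1]
    exact hWU hw
  have F1 : AnalyticOnNhd ℂ (fun z => f (σ z) (τ z)) V :=
    DifferentiableOn.analyticOnNhd
      (fun z hz => (hf σ τ dσ dτ z hz).differentiableWithinAt) V1
  have G1 : AnalyticOnNhd ℂ (fun z => g (σ z) (τ z)) V :=
    DifferentiableOn.analyticOnNhd
      (fun z hz => (hg σ τ dσ dτ z hz).differentiableWithinAt) V1
  have ev : (fun z => f (σ z) (τ z)) =ᶠ[nhds 1] fun z => g (σ z) (τ z) := by
    have h1 : {z : ℂ | (σ z, τ z) ∈ W} ∈ nhds (1 : ℂ) := by
      refine (hW.preimage cst).mem_nhds ?_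
      change (σ 1, τ 1) ∈ W
      rw [e1]
      exact hw
    filter_upwards [h1] with z hz
    exact h _ hz
  have h2 := F1.eqOn_of_preconnected_of_eventuallyEq G1 V2.isPreconnected z1 ev z0
  have h3 : f (σ 0) (τ 0) = g (σ 0) (τ 0) := h2
  have e2 : σ 0 = x.1 := congrArg Prod.fst e0
  have e3 : τ 0 = x.2 := congrArg Prod.snd e0
  rw [e2, e3] at h3
  exact h3

end Pool.Agent.THG
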