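import Pool.Agent.THG.A.Id2
import Pool.Agent.THG.A.KO

/-!
# THG/A-Swap: all L-functions known: the double series on a large box, with both functional equations

`Bx X R` is the box `- X < Re < R`, `|Im| < 1` in both variables.  The functions come from THEOREM X
(`thmXU`); the second functional equation holds for large real parts (`YR_beta`) and is extended by the
identity theorem in two variables.
-/

namespace Pool.Agent.THG

open Pool.Agent.QD Pool.Agent.QD.SysD Pool.Agent.LD Pool.Agent.MD Pool.Agent.THF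

/-- the box -/
def Bx (X R : ℝ) : Set (ℂ × ℂ) :=
  {x | (-X < x.1.re ∧ x.1.re < R ∧ |x.1.im| < 1) ∧ (-X < x.2.re ∧ x.2.re < R ∧ |x.2.im| < 1)}

private theorem sw_open (X R : ℝ) : IsOpen (Bx X R) := by
  have c1 : Continuous fun x : ℂ × ℂ => x.1.re := Complex.continuous_re.comp continuous_fst
  have c2 : Continuous fun x : ℂ × ℂ => x.1.im := Complex.continuous_im.comp continuous_fst
  have c3 : Continuous fun x : ℂ × ℂ => x.2.re := Complex.continuous_re.comp continuous_snd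
  have c4 : Continuous fun x : ℂ × ℂ => x.2.im := Complex.continuous_im.comp continuous_snd
  exact ((isOpen_lt continuous_const c1).inter ((isOpen_lt c1 continuous_const).inter
    (isOpen_lt c2.abs continuous_const))).inter
    ((isOpen_lt continuous_const c3).inter ((isOpen_lt c3 continuous_const).inter
    (isOpen_lt c4.abs continuous_const)))

private theorem sw_re (s t : ℂ) : (ww s t).re = t.re - s.re + 1 / 2 := by
  unfold ww
  simp

private theorem sw_conv (X R : ℝ) :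
    Convex ℝ {x : ℂ × ℂ | x ∈ Bx X R ∧ (ww x.1 x.2).re < 0} := by
  rintro x ⟨⟨⟨x1, x2, x3⟩, ⟨x4, x5, x6⟩⟩, x7⟩ y ⟨⟨⟨y1, y2, y3⟩, ⟨y4, y5, y6⟩⟩, y7⟩ a b ha hb hab
  rw [abs_lt] at x3 x6 y3 y6
  rw [sw_re] at x7 y7
  have k1 : ∀ p q l : ℝ, l < p → l < q → l < a * p + b * q := by
    intro p q l hp hq
    have h := convex_Ioi l hp hq ha hb hab
    exact h
  have k2 : ∀ p q l : ℝ, p < l → q < l → a * p + b * q < l := by
    intro p q l hp hq
    have h := convex_Iio l hp hq ha hb hab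
    exact h
  have e1 : (a • x + b • y).1.re = a * x.1.re + b * y.1.re := by simp
  have e2 : (a • x + b • y).1.im = a * x.1.im + b * y.1.im := by simp
  have e3 : (a • x + b • y).2.re = a * x.2.re + b * y.2.re := by simp
  have e4 : (a • x + b • y).2.im = a * x.2.im + b * y.2.im := by simp
  refine ⟨⟨⟨?_, ?_, ?_⟩, ⟨?_, ?_, ?_⟩⟩, ?_⟩
  · rw [e1]
    exact k1 _ _ _ x1 y1
  · rw [e1]
    exact k2 _ _ _ x2 y2
  · rw [e2, abs_lt]
    exact ⟨k1 _ _ _ x3.1 y3.1, k2 _ _ _ x3.2 y3.2⟩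
  · rw [e3]
    exact k1 _ _ _ x4 y4
  · rw [e3]
    exact k2 _ _ _ x5 y5
  · rw [e4, abs_lt]
    exact ⟨k1 _ _ _ x6.1 y6.1, k2 _ _ _ x6.2 y6.2⟩
  · rw [sw_re, e1, e3]
    have h := k2 (x.2.re - x.1.re) (y.2.re - y.1.re) (-(1 / 2)) (by linarith) (by linarith)
    have e : a * (x.2.re - x.1.re) + b * (y.2.re - y.1.re) =
        a * x.2.re + b * y.2.re - (a * x.1.re + b * y.1.re) := by ring
    rw [e] at h
    linarith

private theorem sw_wopen (X R A : ℝ) : IsOpen {x : ℂ × ℂ | x ∈ {x : ℂ × ℂ | x ∈ Bx X R ∧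
    (ww x.1 x.2).re < 0} ∧ A < x.2.re ∧ x.2.re + 1 / 2 < x.1.re} := by
  have c1 : Continuous fun x : ℂ × ℂ => x.1.re := Complex.continuous_re.comp continuous_fst
  have c3 : Continuous fun x : ℂ × ℂ => x.2.re := Complex.continuous_re.comp continuous_snd
  have c5 : Continuous fun x : ℂ × ℂ => (ww x.1 x.2).re := by
    have e : (fun x : ℂ × ℂ => (ww x.1 x.2).re) = fun x : ℂ × ℂ => x.2.re - x.1.re + 1 / 2 :=
      funext fun x => sw_re _ _
    rw [e]
    exact (c3.sub c1).add continuous_const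
  exact ((sw_open X R).inter (isOpen_lt c5 continuous_const)).inter
    ((isOpen_lt continuous_const c3).inter (isOpen_lt (c3.add continuous_const) c1))

private theorem sw_uopen (X R : ℝ) : IsOpen {x : ℂ × ℂ | x ∈ Bx X R ∧
    (ww x.1 x.2).re < 0} := by
  have c1 : Continuous fun x : ℂ × ℂ => x.1.re := Complex.continuous_re.comp continuous_fst
  have c3 : Continuous fun x : ℂ × ℂ => x.2.re := Complex.continuous_re.comp continuous_snd
  have c5 : Continuous fun x : ℂ × ℂ => (ww x.1 x.2).re := by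
    have e : (fun x : ℂ × ℂ => (ww x.1 x.2).re) = fun x : ℂ × ℂ => x.2.re - x.1.re + 1 / 2 :=
      funext fun x => sw_re _ _
    rw [e]
    exact (c3.sub c1).add continuous_const
  exact (sw_open X R).inter (isOpen_lt c5 continuous_const)

theorem swap {S : SysD} (hS : IsSys0 S) (hG : IsKn S Set.univ) : ∃ A : ℝ, 6 ≤ A ∧
    ∀ X R : ℝ, 0 < X → A + 1 < R → ∃ E : S.G → ℂ → ℂ → ℂ,
      (∀ c, Hol2 (Bx X R) (E c)) ∧
      (∀ (c : S.G) (s t : ℂ), (s, t) ∈ Bx X R → (2 - s, t) ∈ Bx X R → s.re < 1 / 2 →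
        E c s t = S.GG c s * E c (2 - s) t) ∧
      (∀ (c : S.G) (s t : ℂ), (s, t) ∈ Bx X R → A < s.re → A < t.re → E c s t = YR S c s t) ∧
      ∀ (c : S.G) (s t : ℂ), (s, t) ∈ Bx X R → (ww s t).re < 0 →
        (ww s t) ^ 2 * E c s t = (ww s t - 1) ^ 2 * ((S.cU : ℂ) ^ 2)⁻¹ *
          ∑ c' : S.G, S.M (c * c') (ww s t) * E c' t s := by
  obtain ⟨A0, hA0, HX⟩ := thmXU hS hG
  obtain ⟨A1, hA1, HB⟩ := YR_beta hS
  obtain ⟨A, hA⟩ : ∃ A : ℝ, A = max A0 A1 + 2 := ⟨_, rfl⟩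
  have hAA0 : A0 + 2 ≤ A := by
    rw [hA]
    have := le_max_left A0 A1
    linarith
  have hAA1 : A1 + 2 ≤ A := by
    rw [hA]
    have := le_max_right A0 A1
    linarith
  refine ⟨A, by linarith, ?_⟩
  intro X R hX hR
  have hT := isOm_kn hS hG (-X - 2) 0 (r := 3) (by norm_num)
  obtain ⟨b0, hb0, hRb, HE⟩ := HX (omK S (-X - 2) 0 3) hT (-X - 1) 2 (R + 1)
    (show -X - 2 < -X - 1 by linarith) (by norm_num) (show (2 : ℝ) < 3 by norm_num)
    (by linarith) (by linarith)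
  obtain ⟨B, hB⟩ : ∃ B : ℝ, B = max b0 (X + 3) + 1 := ⟨_, rfl⟩
  have hBb : b0 < B := by
    rw [hB]
    have := le_max_left b0 (X + 3)
    linarith
  have hBX : X + 3 < B := by
    rw [hB]
    have := le_max_right b0 (X + 3)
    linarith
  have HE2 := fun c : S.G => HE c (Set.mem_univ c) B hBb
  choose E hE1 _ hE3 hE4 using HE2
  have hmem : ∀ t : ℂ, -X < t.re → t.re < R → |t.im| < 1 →
      t ∈ (omK S (-X - 2) 0 3).OmR (-X - 1) 2 (R + 1) := by
    intro t h1 h2 h3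
    refine ⟨by linarith, by linarith, ?_⟩
    show |t.im - 0| < 2
    rw [sub_zero]
    linarith
  have hH : ∀ c, Hol2 (Bx X R) (E c) := by
    intro c
    refine (hE1 c).mono ?_
    rintro x ⟨⟨h1, h2, h3⟩, ⟨h4, h5, h6⟩⟩
    exact ⟨⟨by linarith, by linarith⟩, hmem _ h4 h5 h6⟩
  have hYR : ∀ (c : S.G) (s t : ℂ), (s, t) ∈ Bx X R → A0 < s.re → A0 < t.re →
      E c s t = YR S c s t := by
    rintro c s t ⟨⟨h1, h2, h3⟩, ⟨h4, h5, h6⟩⟩ h7 h8
    have h2' : s.re < R := h2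
    have h9 := hE4 c s t h7 (by linarith) (hmem t h4 h5 h6) h8
    rw [h9]
    show 1 * YR S c s t = YR S c s t
    rw [one_mul]
  refine ⟨E, hH, ?_, ?_, ?_⟩
  · rintro c s t ⟨⟨h1, h2, h3⟩, ⟨h4, h5, h6⟩⟩ _ h7
    have h1' : -X < s.re := h1
    exact hE3 c s t (by linarith) h7 (hmem t h4 h5 h6)
  · intro c s t h1 h2 h3
    exact hYR c s t h1 (by linarith) (by linarith)
  · intro c s t h1 h2
    have key := ident2 (sw_uopen X R) (sw_conv X R)
      (W := {x : ℂ × ℂ | x ∈ {x : ℂ × ℂ | x ∈ Bx X R ∧ (ww x.1 x.2).re < 0} ∧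
        A < x.2.re ∧ x.2.re + 1 / 2 < x.1.re})
      (f := fun s t => (ww s t) ^ 2 * E c s t)
      (g := fun s t => (ww s t - 1) ^ 2 * ((S.cU : ℂ) ^ 2)⁻¹ *
          ∑ c' : S.G, S.M (c * c') (ww s t) * E c' t s) ?_ ?_ (sw_wopen X R A)
      (fun x hx => hx.1) ?_ ?_ (s, t) ⟨h1, h2⟩
    · exact key
    · intro σ τ hσ hτ z hz
      have d1 : DifferentiableAt ℂ (fun z => ww (σ z) (τ z)) z :=
        hol2_ww σ τ hσ hτ z (Set.mem_univ _)
      exact (d1.fun_pow 2).fun_mul (hH c σ τ hσ hτ z hz.1)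
    · intro σ τ hσ hτ z hz
      have d1 : DifferentiableAt ℂ (fun z => ww (σ z) (τ z)) z :=
        hol2_ww σ τ hσ hτ z (Set.mem_univ _)
      refine (((d1.sub_const 1).fun_pow 2).mul_const _).fun_mul ?_
      refine DifferentiableAt.fun_sum fun c' _ => ?_
      have hz' : (ww (σ z) (τ z)).re < 0 := hz.2
      have d2 : DifferentiableAt ℂ (S.M (c * c')) (ww (σ z) (τ z)) :=
        (M_diff hS (c * c')).differentiableAt
          ((isOpen_lt Complex.continuous_re continuous_const).mem_nhds hz')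
      have d3 : DifferentiableAt ℂ (S.M (c * c') ∘ fun z => ww (σ z) (τ z)) z :=
        DifferentiableAt.comp (g := S.M (c * c')) z d2 d1
      have hsw : (τ z, σ z) ∈ Bx X R := ⟨hz.1.2, hz.1.1⟩
      exact DifferentiableAt.fun_mul (a := fun z => S.M (c * c') (ww (σ z) (τ z))) d3
        (hH c' τ σ hτ hσ z hsw)
    · refine ⟨(((A + 3 / 4 : ℝ) : ℂ), ((A + 1 / 8 : ℝ) : ℂ)), ⟨⟨⟨?_, ?_, ?_⟩, ⟨?_, ?_, ?_⟩⟩, ?_⟩,
        ?_, ?_⟩
      · show -X < (((A + 3 / 4 : ℝ) : ℂ)).re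
        rw [Complex.ofReal_re]
        linarith
      · show (((A + 3 / 4 : ℝ) : ℂ)).re < R
        rw [Complex.ofReal_re]
        linarith
      · show |(((A + 3 / 4 : ℝ) : ℂ)).im| < 1
        rw [Complex.ofReal_im, abs_zero]
        norm_num
      · show -X < (((A + 1 / 8 : ℝ) : ℂ)).re
        rw [Complex.ofReal_re]
        linarith
      · show (((A + 1 / 8 : ℝ) : ℂ)).re < R
        rw [Complex.ofReal_re]
        linarith
      · show |(((A + 1 / 8 : ℝ) : ℂ)).im| < 1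
        rw [Complex.ofReal_im, abs_zero]
        norm_num
      · rw [sw_re]
        show (((A + 1 / 8 : ℝ) : ℂ)).re - (((A + 3 / 4 : ℝ) : ℂ)).re + 1 / 2 < 0
        rw [Complex.ofReal_re, Complex.ofReal_re]
        linarith
      · show A < (((A + 1 / 8 : ℝ) : ℂ)).re
        rw [Complex.ofReal_re]
        linarith
      · show (((A + 1 / 8 : ℝ) : ℂ)).re + 1 / 2 < (((A + 3 / 4 : ℝ) : ℂ)).re
        rw [Complex.ofReal_re, Complex.ofReal_re]
        linarith
    · rintro ⟨s', t'⟩ ⟨⟨h3, h4⟩, h5, h6⟩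
      have h5' : A < t'.re := h5
      have h6' : t'.re + 1 / 2 < s'.re := h6
      have h4' : (ww s' t').re < 0 := h4
      show (ww s' t') ^ 2 * E c s' t' = (ww s' t' - 1) ^ 2 * ((S.cU : ℂ) ^ 2)⁻¹ *
          ∑ c' : S.G, S.M (c * c') (ww s' t') * E c' t' s'
      rw [hYR c s' t' h3 (by linarith) (by linarith), HB c s' t' (by linarith) (by linarith) h4']
      congr 1
      refine Finset.sum_congr rfl fun c' _ => ?_
      have hsw : (t', s') ∈ Bx X R := ⟨h3.2, h3.1⟩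
      rw [hYR c' t' s' hsw (by linarith) (by linarith)]

end Pool.Agent.THG
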