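import Pool.Agent.THF.A.Reg
import Pool.Agent.THF.A.Agr
import Pool.Agent.THF.A.IV
import Pool.Agent.THF.A.IH

/-!
# THG/A-XU: THEOREM X with constants independent of the data `T` (as THF/A/Agr, THF/A/X)
-/

namespace Pool.Agent.THG

open Pool.Agent.QD Pool.Agent.QD.SysD Pool.Agent.LD Pool.Agent.MD Pool.Agent.THF




private theorem agr_ww_swap (s t : ℂ) : ww t s = 1 - ww s t := by
  unfold ww
  ring

private theorem agr_wp_swap (s t : ℂ) : wp t s = wp s t := by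
  unfold wp
  ring

private theorem agr_InE {S : SysD} (hS : IsSys0 S) {T : OmD S} (hT : IsOm S T) (c' : S.G)
    {z t : ℂ} (ht : t ∈ T.Om) (ht6 : 6 ≤ t.re) (hz : 1 < z.re) :
    T.om t * (S.Ls t * ∑' m : S.J, (S.nJ m : ℂ) ^ (-t) * S.D m c' z) = T.InE c' z t := by
  classical
  rw [fubini_D hS c' ht6 hz]
  unfold OmD.InE
  rw [← tsum_mul_left, ← tsum_mul_left]
  refine tsum_congr fun b => ?_
  by_cases hR : S.R b c'
  · rw [if_pos hR, if_pos hR, AA_eq hS b c' hR ht6, hT.e_eq b c' hR t ht (by linarith)]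
    ring
  · rw [if_neg hR, if_neg hR]
    ring

private theorem agr_YR {S : SysD} (hS : IsSys0 S) {T : OmD S} (hT : IsOm S T) (c' : S.G)
    {s t : ℂ} (ht : t ∈ T.Om) (ht6 : 6 ≤ t.re) (hw : (ww s t).re < 0) :
    T.om t * YR S c' t s = S.Ls s * ((wp s t - 1) ^ 2 * S.Z1 (wp s t)) *
      ((ww s t) ^ 2 * S.Z1 (1 - ww s t)) * T.InE c' (1 - ww s t) t := by
  have hz : 1 < (1 - ww s t).re := by
    rw [Complex.sub_re, Complex.one_re]
    linarith
  rw [← agr_InE hS hT c' ht ht6 hz]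
  have h1 : FF S c' t s = (ww s t) ^ 2 * S.Z1 (1 - ww s t) *
      ∑' m : S.J, (S.nJ m : ℂ) ^ (-t) * S.D m c' (1 - ww s t) := by
    unfold FF
    rw [← tsum_mul_left]
    refine tsum_congr fun m => ?_
    rw [agr_ww_swap, DD_eq hS m c' hz]
    ring
  unfold YR Pi2
  rw [h1, agr_wp_swap]
  ring

theorem FE_eqU {S : SysD} (hS : IsSys0 S) : ∃ A1 : ℝ, 6 ≤ A1 ∧
    ∀ (T : OmD S), IsOm S T → ∀ (c : S.G) (s t : ℂ), t ∈ T.Om → A1 < t.re → A1 < s.re →
      t.re + 1 < s.re → T.FE c s t = T.om t * YR S c s t := by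
  obtain ⟨A0, hA0, H⟩ := YR_beta hS
  refine ⟨A0, hA0, fun T hT c s t ht ht1 hs1 hts => ?_⟩
  have hw : (ww s t).re < 0 := by
    have e : (ww s t).re = t.re - s.re + 1 / 2 := by
      unfold ww
      simp
    rw [e]
    linarith
  have hw0 : ww s t ≠ 0 := by
    intro h
    rw [h, Complex.zero_re] at hw
    exact lt_irrefl _ hw
  have h1 := H c s t hs1 ht1 hw
  have h2 : (ww s t) ^ 2 * (T.om t * YR S c s t) = (ww s t) ^ 2 * T.FE c s t := by
    calc (ww s t) ^ 2 * (T.om t * YR S c s t) = T.om t * ((ww s t) ^ 2 * YR S c s t) := by ring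
      _ = (ww s t - 1) ^ 2 * ((S.cU : ℂ) ^ 2)⁻¹ *
          ∑ c' : S.G, S.M (c * c') (ww s t) * (T.om t * YR S c' t s) := by
        rw [h1, Finset.mul_sum, Finset.mul_sum, Finset.mul_sum]
        refine Finset.sum_congr rfl fun c' _ => ?_
        ring
      _ = (ww s t) ^ 2 * T.FE c s t := by
        unfold OmD.FE
        rw [Finset.mul_sum, Finset.mul_sum, Finset.mul_sum]
        refine Finset.sum_congr rfl fun c' _ => ?_
        rw [agr_YR hS hT c' ht (by linarith) hw]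
        ring
  have h3 : (ww s t) ^ 2 ≠ 0 := pow_ne_zero 2 hw0
  exact (mul_left_cancel₀ h3 h2).symm




private theorem x_open {S : SysD} (T : OmD S) (x1 r1 R1 : ℝ) : IsOpen (T.OmR x1 r1 R1) := by
  have h1 : Continuous fun t : ℂ => |t.im - T.y0| :=
    (Complex.continuous_im.sub continuous_const).abs
  exact (isOpen_lt continuous_const Complex.continuous_re).inter
    ((isOpen_lt Complex.continuous_re continuous_const).inter
      (isOpen_lt h1 continuous_const))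

private theorem x_convex {S : SysD} (T : OmD S) (x1 r1 R1 : ℝ) : Convex ℝ (T.OmR x1 r1 R1) := by
  have h1 : T.OmR x1 r1 R1 = (Complex.im ⁻¹' Set.Ioo (T.y0 - r1) (T.y0 + r1)) ∩
      (Complex.re ⁻¹' Set.Ioo x1 R1) := by
    ext t
    simp only [OmD.OmR, Set.mem_setOf_eq, Set.mem_inter_iff, Set.mem_preimage, Set.mem_Ioo,
      abs_lt]
    constructor
    · rintro ⟨h3, h4, h1, h2⟩
      exact ⟨⟨by linarith, by linarith⟩, h3, h4⟩
    · rintro ⟨⟨h1, h2⟩, h3, h4⟩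
      exact ⟨h3, h4, by linarith, by linarith⟩
  rw [h1]
  exact ((convex_Ioo _ _).linear_preimage Complex.imLm).inter
    ((convex_Ioo _ _).linear_preimage Complex.reLm)

private theorem x_sub {S : SysD} (T : OmD S) {x1 r1 R1 : ℝ} (h1 : T.x0 < x1) (h2 : r1 < T.r) {t : ℂ}
    (ht : t ∈ T.OmR x1 r1 R1) : t ∈ T.Om :=
  ⟨lt_trans h1 ht.1, lt_trans ht.2.2 h2⟩

/-- the identity theorem on `OmR x1 r1 R1` -/
private theorem x_ident {S : SysD} (T : OmD S) {x1 r1 R1 A0 : ℝ} (hr : 0 < r1) (hA : A0 < R1)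
    (hx : x1 < R1) {f g : ℂ → ℂ} (hf : ∀ t ∈ T.OmR x1 r1 R1, DifferentiableAt ℂ f t)
    (hg : ∀ t ∈ T.OmR x1 r1 R1, DifferentiableAt ℂ g t)
    (h : ∀ t ∈ T.OmR x1 r1 R1, A0 < t.re → f t = g t) {t : ℂ} (ht : t ∈ T.OmR x1 r1 R1) :
    f t = g t := by
  obtain ⟨x, hx0, hx1, hx2⟩ : ∃ x : ℝ, A0 < x ∧ x1 < x ∧ x < R1 := by
    obtain ⟨x, h1, h2⟩ := exists_between (max_lt hA hx)
    exact ⟨x, lt_of_le_of_lt (le_max_left _ _) h1, lt_of_le_of_lt (le_max_right _ _) h1, h2⟩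
  obtain ⟨t1, ht1⟩ : ∃ t1 : ℂ, t1 = ⟨x, T.y0⟩ := ⟨_, rfl⟩
  have ht1re : t1.re = x := by rw [ht1]
  have ht1im : t1.im = T.y0 := by rw [ht1]
  have hm1 : t1 ∈ T.OmR x1 r1 R1 := by
    refine ⟨?_, ?_, ?_⟩
    · rw [ht1re]
      exact hx1
    · rw [ht1re]
      exact hx2
    · rw [ht1im, sub_self, abs_zero]
      exact hr
  have hfa : AnalyticOnNhd ℂ f (T.OmR x1 r1 R1) :=
    DifferentiableOn.analyticOnNhd (fun t ht => (hf t ht).differentiableWithinAt)
      (x_open T x1 r1 R1)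
  have hga : AnalyticOnNhd ℂ g (T.OmR x1 r1 R1) :=
    DifferentiableOn.analyticOnNhd (fun t ht => (hg t ht).differentiableWithinAt)
      (x_open T x1 r1 R1)
  have hev : f =ᶠ[nhds t1] g := by
    have h2 : IsOpen {t : ℂ | A0 < t.re} := isOpen_lt continuous_const Complex.continuous_re
    have h3 : t1 ∈ {t : ℂ | A0 < t.re} := by
      rw [Set.mem_setOf_eq, ht1re]
      exact hx0
    filter_upwards [(x_open T x1 r1 R1).mem_nhds hm1, h2.mem_nhds h3] with t h4 h5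
    exact h t h4 h5
  exact hfa.eqOn_of_preconnected_of_eventuallyEq hga (x_convex T x1 r1 R1).isPreconnected hm1
    hev ht

theorem thmXU {S : SysD} {Kn : Set S.G} (hS : IsSys0 S) (hG : IsKn S Kn) : ∃ A0 : ℝ, 6 ≤ A0 ∧
    ∀ (T : OmD S), IsOm S T → ∀ x1 r1 R1 : ℝ, T.x0 < x1 → 0 < r1 → r1 < T.r → A0 < R1 →
      x1 < R1 → ∃ b0 : ℝ, 10 ≤ b0 ∧ R1 ≤ b0 ∧ ∀ c ∈ Kn, ∀ B : ℝ, b0 < B → ∃ E : ℂ → ℂ → ℂ,
        Hol2 {x : ℂ × ℂ | (2 - B < x.1.re ∧ x.1.re < B) ∧ x.2 ∈ T.OmR x1 r1 R1} E ∧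
        (∀ s t : ℂ, b0 < s.re → s.re < B → t ∈ T.OmR x1 r1 R1 → E s t = T.FE c s t) ∧
        (∀ s t : ℂ, 2 - B < s.re → s.re < 1 / 2 → t ∈ T.OmR x1 r1 R1 →
          E s t = S.GG c s * E (2 - s) t) ∧
        ∀ s t : ℂ, A0 < s.re → s.re < B → t ∈ T.OmR x1 r1 R1 → A0 < t.re →
          E s t = T.om t * YR S c s t := by
  obtain ⟨R, Y, hR, hY⟩ := exists_Y hS hG
  obtain ⟨A1, hA1, hFEU⟩ := FE_eqU hS
  refine ⟨max R A1, le_trans hR (le_max_left _ _), ?_⟩
  intro T hT x1 r1 R1 hx1 hr hrT hAR hxR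
  have hFE := hFEU T hT
  obtain ⟨bb, hbb1, hbb2, hbb⟩ := FE_reg hS hT R1 hx1 hrT
  have hRA : R ≤ max R A1 := le_max_left _ _
  have hAA : A1 ≤ max R A1 := le_max_right _ _
  obtain ⟨A0, hA0⟩ : ∃ A0, A0 = max R A1 := ⟨_, rfl⟩
  rw [← hA0] at hRA hAA hAR ⊢
  refine ⟨bb, hbb1, by linarith, ?_⟩
  intro c hc B hB
  obtain ⟨hhol, hbd⟩ := hbb c
  have hI : Hol2 {x : ℂ × ℂ | (2 - B < x.1.re ∧ x.1.re < B) ∧ x.2 ∈ T.OmR x1 r1 R1}
      (T.IE B c) := IE_hol (hG.GG_diff c) (hG.GG_bd c) hbb1 hB hhol (hbd B hB)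
  have hkey : ∀ s t : ℂ, 2 - B < s.re → s.re < B → t ∈ T.OmR x1 r1 R1 → A0 < t.re →
      T.IE B c s t = T.om t * Y c s t := by
    intro s t hs1 hs2 ht htA
    refine IE_eq_Y hY hc (by linarith) hB (by linarith) ?_ hs1 hs2
    intro s' hs'
    have h1 : t.re < R1 := ht.2.1
    rw [hFE c s' t (x_sub T hx1 hrT ht) (by linarith) (by linarith) (by linarith),
      hY.eq c hc s' t (by linarith) (by linarith)]
  have hId : ∀ s t : ℂ, 2 - B < s.re → s.re < B → t ∈ T.OmR x1 r1 R1 →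
      DifferentiableAt ℂ (fun z => T.IE B c s z) t := by
    intro s t hs1 hs2 ht
    exact hI (fun _ => s) (fun z => z) (differentiable_const s) differentiable_id t
      ⟨⟨hs1, hs2⟩, ht⟩
  refine ⟨T.IE B c, hI, ?_, ?_, ?_⟩
  · intro s t hs1 hs2 ht
    have hs3 : 2 - B < s.re := by linarith
    refine x_ident T hr hAR hxR (f := fun z => T.IE B c s z) (g := fun z => T.FE c s z)
      (fun z hz => hId s z hs3 hs2 hz) ?_ ?_ ht
    · intro z hz
      exact hhol (fun _ => s) (fun z => z) (differentiable_const s) differentiable_id z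
        ⟨hs1, hz⟩
    · intro z hz hzA
      have h1 : z.re < R1 := hz.2.1
      show T.IE B c s z = T.FE c s z
      rw [hkey s z hs3 hs2 hz hzA,
        hFE c s z (x_sub T hx1 hrT hz) (by linarith) (by linarith) (by linarith),
        hY.eq c hc s z (by linarith) (by linarith)]
  · intro s t hs1 hs2 ht
    have hs3 : s.re < B := by linarith
    have h2s : ((2 : ℂ) - s).re = 2 - s.re := by
      rw [Complex.sub_re]
      norm_num
    have hs4 : 2 - B < ((2 : ℂ) - s).re := by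
      rw [h2s]
      linarith
    have hs5 : ((2 : ℂ) - s).re < B := by
      rw [h2s]
      linarith
    refine x_ident T hr hAR hxR (f := fun z => T.IE B c s z)
      (g := fun z => S.GG c s * T.IE B c (2 - s) z)
      (fun z hz => hId s z hs1 hs3 hz) ?_ ?_ ht
    · intro z hz
      exact (hId (2 - s) z hs4 hs5 hz).const_mul _
    · intro z hz hzA
      show T.IE B c s z = S.GG c s * T.IE B c (2 - s) z
      rw [hkey s z hs1 hs3 hz hzA, hkey (2 - s) z hs4 hs5 hz hzA,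
        hY.fe c hc s z hs2 (by linarith)]
      ring
  · intro s t hs1 hs2 ht htA
    rw [hkey s t (by linarith) hs2 ht htA, hY.eq c hc s t (by linarith) (by linarith)]

end Pool.Agent.THG
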